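import Pool.Agent.D0H99.OD.Stm6
import Pool.Agent.D0H98.OD.Core

/-! `FM2` of `Pool.Agent.D0H99.OD.Stm6`. -/

set_option autoImplicit false

open Polynomial

namespace Pool.Agent.D0H29.OD

open Finset
open Pool.Agent.D0H99.OD (PD Dg dg)
open Pool.Agent.Y164.PS (Pr mem_Pr)

section
variable {k : Type} [Field k]

open UniqueFactorizationMonoid in
/-- monic squarefree polynomials with the same prime factors are equal -/
theorem dvd_of_PD [DecidableEq k] {f g : k[X]} (hf : f.Monic) (hg : g.Monic) (hs : Squarefree f)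
    (h : PD f ⊆ PD g) : f ∣ g := by
  rw [dvd_iff_normalizedFactors_le_normalizedFactors hf.ne_zero hg.ne_zero]
  rw [Multiset.le_iff_subset ((squarefree_iff_nodup_normalizedFactors hf.ne_zero).1 hs)]
  intro P hP
  rw [Polynomial.mem_normalizedFactors_iff hf.ne_zero] at hP
  rw [Polynomial.mem_normalizedFactors_iff hg.ne_zero]
  have h1 : P ∈ PD g := h ⟨hP.2.1, hP.1, hP.2.2⟩
  exact ⟨h1.2.1, h1.1, h1.2.2⟩

theorem eq_of_PD [DecidableEq k] {f g : k[X]} (hf : f.Monic) (hg : g.Monic) (hs : Squarefree f)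
    (hs' : Squarefree g) (h : PD f = PD g) : f = g :=
  Polynomial.eq_of_monic_of_associated hf hg
    (associated_of_dvd_dvd (dvd_of_PD hf hg hs h.le) (dvd_of_PD hg hf hs' h.ge))

theorem mem_Dg {f : k[X]} {n0 n : ℕ} :
    n ∈ Dg f n0 ↔ n < f.natDegree + 1 ∧ n0 < n ∧ ∃ P ∈ PD f, P.natDegree = n := by
  simp only [Dg, Finset.mem_filter, Finset.mem_range]

end

theorem t_FM2 : Pool.Agent.D0H99.OD.S_FM2 := by
  intro k _ _ _ n0 E A hE hA R
  have hPr : ∀ n P, P ∈ Pr k n ↔ P.Monic ∧ Irreducible P ∧ P.natDegree = n := fun n P => mem_Pr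
  have hdg : ∀ A : Finset ℕ, dg A = Pool.Agent.D0H98.OD.dg' A := fun A => rfl
  set g : (Fin A.card → k[X]) → k[X] := fun d => (∏ P ∈ E, P) * ∏ i, d i with hg
  have hEm : (∏ P ∈ E, P).Monic := Polynomial.monic_prod_of_monic _ _ fun P hP => (hE P hP).1
  have hm : ∀ d : Fin A.card → k[X], (∀ i, d i ∈ Pr k (dg A i)) → (∏ i, d i).Monic := fun d hd =>
    Polynomial.monic_prod_of_monic _ _ fun i _ => ((hPr _ _).1 (hd i)).1
  have hgm : ∀ d : Fin A.card → k[X], (∀ i, d i ∈ Pr k (dg A i)) → (g d).Monic := fun d hd =>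
    hEm.mul (hm d hd)
  have hPD : ∀ d : Fin A.card → k[X], (∀ i, d i ∈ Pr k (dg A i)) →
      PD (g d) = (E : Set k[X]) ∪ Set.range d := by
    intro d hd
    ext P
    constructor
    · rintro ⟨h1, h2, h3⟩
      rcases h2.prime.dvd_or_dvd h3 with h4 | h4
      · obtain ⟨Q, hQ, h5⟩ := (h2.prime.dvd_finsetProd_iff (fun P => P)).1 h4
        left
        have h6 : P = Q := Polynomial.eq_of_monic_of_associated h1 (hE Q hQ).1
          ((h2.dvd_irreducible_iff_associated (hE Q hQ).2.1).1 h5)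
        rw [h6]
        exact hQ
      · obtain ⟨i, -, h5⟩ := (h2.prime.dvd_finsetProd_iff d).1 h4
        right
        have h7 := (hPr _ _).1 (hd i)
        exact ⟨i, (Polynomial.eq_of_monic_of_associated h1 h7.1
          ((h2.dvd_irreducible_iff_associated h7.2.1).1 h5)).symm⟩
    · rintro (h1 | ⟨i, rfl⟩)
      · exact ⟨(hE P h1).1, (hE P h1).2.1, Dvd.dvd.mul_right (Finset.dvd_prod_of_mem _ h1) _⟩
      · have h7 := (hPr _ _).1 (hd i)
        exact ⟨h7.1, h7.2.1, Dvd.dvd.mul_left (Finset.dvd_prod_of_mem _ (Finset.mem_univ i)) _⟩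
  have hdeg : ∀ d : Fin A.card → k[X], (∀ i, d i ∈ Pr k (dg A i)) → ∀ i, (d i).natDegree = dg A i :=
    fun d hd i => ((hPr _ _).1 (hd i)).2.2
  have hdgA : ∀ i, n0 < dg A i := fun i => hA _ (Pool.Agent.D0H98.OD.dg'_mem A i)
  have cop : ∀ P Q : k[X], P.Monic → Q.Monic → Irreducible P → Irreducible Q → P ≠ Q →
      IsCoprime P Q := by
    intro P Q h1 h2 h3 h4 h5
    exact (h3.coprime_iff_not_dvd).2 fun h6 => h5 (Polynomial.eq_of_monic_of_associated h1 h2
      ((h3.dvd_irreducible_iff_associated h4).1 h6))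
  have hsq : ∀ d : Fin A.card → k[X], (∀ i, d i ∈ Pr k (dg A i)) → Squarefree (g d) := by
    intro d hd
    have s1 : Squarefree (∏ P ∈ E, P) := by
      refine Finset.squarefree_prod_of_pairwise_isCoprime ?_ fun P hP => (hE P hP).2.1.squarefree
      intro P hP Q hQ hPQ
      exact (cop P Q (hE P hP).1 (hE Q hQ).1 (hE P hP).2.1 (hE Q hQ).2.1 hPQ).isRelPrime
    have s2 : Squarefree (∏ i, d i) := by
      refine Finset.squarefree_prod_of_pairwise_isCoprime ?_
        fun i _ => ((hPr _ _).1 (hd i)).2.1.squarefree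
      intro i _ j _ hij
      have h7 := (hPr _ _).1 (hd i)
      have h8 := (hPr _ _).1 (hd j)
      refine (cop (d i) (d j) h7.1 h8.1 h7.2.1 h8.2.1 fun h => hij ?_).isRelPrime
      apply Pool.Agent.D0H98.OD.dg'_inj A
      rw [← hdg, ← hdeg d hd i, h, hdeg d hd j]
    have s3 : IsCoprime (∏ P ∈ E, P) (∏ i, d i) := by
      refine IsCoprime.prod_left fun P hP => IsCoprime.prod_right fun i _ => ?_
      have h7 := (hPr _ _).1 (hd i)
      refine cop P (d i) (hE P hP).1 h7.1 (hE P hP).2.1 h7.2.1 fun h => ?_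
      have h8 := (hE P hP).2.2
      rw [h, h7.2.2] at h8
      exact absurd (hdgA i) (not_lt.2 h8)
    exact (squarefree_mul_iff).2 ⟨s3.isRelPrime, s1, s2⟩
  have himg : {f : k[X] | (f.Monic ∧ Squarefree f ∧ {P ∈ PD f | P.natDegree ≤ n0} = (E : Set k[X]) ∧
      (∀ P ∈ PD f, ∀ P' ∈ PD f, n0 < P.natDegree → P.natDegree = P'.natDegree → P = P') ∧
      Dg f n0 = A) ∧ R f} =
      g '' {d : Fin A.card → k[X] | (∀ i, d i ∈ Pr k (dg A i)) ∧ R ((∏ P ∈ E, P) * ∏ i, d i)} := by
    ext f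
    constructor
    · rintro ⟨⟨h1, h2, h3, h4, h5⟩, h6⟩
      have hex : ∀ i, ∃ P ∈ PD f, P.natDegree = dg A i := by
        intro i
        have h7 : dg A i ∈ Dg f n0 := by
          rw [h5]
          exact Pool.Agent.D0H98.OD.dg'_mem A i
        exact (mem_Dg.1 h7).2.2
      choose d hd1 hd2 using hex
      have hd : ∀ i, d i ∈ Pr k (dg A i) := fun i =>
        (hPr _ _).2 ⟨(hd1 i).1, (hd1 i).2.1, hd2 i⟩
      have hfg : f = g d := by
        refine eq_of_PD h1 (hgm d hd) h2 (hsq d hd) ?_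
        rw [hPD d hd]
        ext P
        constructor
        · intro hP
          by_cases h8 : P.natDegree ≤ n0
          · left
            rw [← h3]
            exact ⟨hP, h8⟩
          · right
            have h9 : P.natDegree ∈ Dg f n0 := by
              exact mem_Dg.2 ⟨Nat.lt_succ_of_le (Polynomial.natDegree_le_of_dvd hP.2.2 h1.ne_zero),
                not_le.1 h8, P, hP, rfl⟩
            rw [h5] at h9
            obtain ⟨i, hi⟩ := Pool.Agent.D0H98.OD.dg'_surj A h9
            refine ⟨i, (h4 P hP (d i) (hd1 i) (not_le.1 h8) ?_).symm⟩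
            rw [hd2 i, hdg, hi]
        · rintro (h8 | ⟨i, rfl⟩)
          · rw [← h3] at h8
            exact h8.1
          · exact hd1 i
      refine ⟨d, ⟨hd, ?_⟩, hfg.symm⟩
      have := h6
      rw [hfg] at this
      exact this
    · rintro ⟨d, ⟨hd, hR⟩, rfl⟩
      refine ⟨⟨hgm d hd, hsq d hd, ?_, ?_, ?_⟩, hR⟩
      · rw [hPD d hd]
        ext P
        constructor
        · rintro ⟨h1 | ⟨i, rfl⟩, h2⟩
          · exact h1
          · rw [hdeg d hd i] at h2
            exact absurd (hdgA i) (not_lt.2 h2)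
        · intro h1
          exact ⟨Or.inl h1, (hE P h1).2.2⟩
      · rw [hPD d hd]
        intro P hP P' hP' h1 h2
        have hr : ∀ Q ∈ (E : Set k[X]) ∪ Set.range d, n0 < Q.natDegree → ∃ i, d i = Q := by
          rintro Q (hQ | ⟨i, rfl⟩) h3
          · exact absurd h3 (not_lt.2 (hE Q hQ).2.2)
          · exact ⟨i, rfl⟩
        obtain ⟨i, rfl⟩ := hr P hP h1
        obtain ⟨j, rfl⟩ := hr P' hP' (h2 ▸ h1)
        rw [hdeg d hd i, hdeg d hd j] at h2
        rw [Pool.Agent.D0H98.OD.dg'_inj A h2]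
      · ext n
        rw [mem_Dg, hPD d hd]
        constructor
        · rintro ⟨-, h1, P, hP | ⟨i, rfl⟩, rfl⟩
          · exact absurd h1 (not_lt.2 (hE P hP).2.2)
          · rw [hdeg d hd i]
            exact Pool.Agent.D0H98.OD.dg'_mem A i
        · intro hn
          obtain ⟨i, hi⟩ := Pool.Agent.D0H98.OD.dg'_surj A hn
          have h1 : (d i).natDegree = n := (hdeg d hd i).trans hi
          refine ⟨?_, hA n hn, d i, Or.inr ⟨i, rfl⟩, h1⟩
          rw [← h1]
          refine Nat.lt_succ_of_le (Polynomial.natDegree_le_of_dvd ?_ (hgm d hd).ne_zero)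
          exact Dvd.dvd.mul_left (Finset.dvd_prod_of_mem _ (Finset.mem_univ i)) _
  rw [himg]
  refine Set.InjOn.ncard_image ?_
  intro d hd e he h
  exact Pool.Agent.D0H98.OD.inj_of hPr hd.1 he.1 (mul_left_cancel₀ hEm.ne_zero h)

end Pool.Agent.D0H29.OD
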